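import Mathlib

/-!
# Project CX (MP_f22a19_gt): look-up in a binary search tree
-/

set_option autoImplicit false

namespace Pool.CX

/-- binary search tree with numbers as keys -/
inductive BT (α : Type) : Type
  | nil : BT α
  | node (l : BT α) (i : ℕ) (a : α) (r : BT α) : BT α

/-- the entry with key `x`, or the default value `d` -/
def BT.get {α : Type} (d : α) : BT α → ℕ → α
  | BT.nil, _ => d
  | BT.node l i a r, x =>
    bif Nat.blt x i then l.get d x else bif Nat.blt i x then r.get d x else a

end Pool.CX
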