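import Pool.Agent.Helper26.PM.Val
import Pool.Agent.Helper45.CX.FanW
import Pool.Agent.Helper47.CX.Asm2
import Pool.Agent.Helper69.CX.FastAll
import Pool.Agent.Helper93.CX.LabW

/-!
# Project CX (MP_f22a19_gt): the counterexample from the kernel checks of the data files

The same as `main_final` of helper47, with one certificate for each vertex (`chkV`, no stars) and
the relations of the projective labels in a search tree.
-/

set_option autoImplicit false

namespace Pool.CX

open Pool.Agent.Helper66.AF Helper69.CX
open Pool.Agent.Helper26.PM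

/-- the conditions on the facets from the checks, with the relations in a search tree -/
theorem ok_of_tree (X : VData) {n : ℕ} {r : RT} (hM : X.chkMat r.toList = true) {T : List (ST ℕ)}
    (hI : chkIncr n T = true)
    (h : T.all (fun s => chkRel r.has X.lab ((vl s).map X.fold) && X.chkAdm s) = true) :
    ∀ s ∈ T, X.Ok n s := by
  intro s hs
  rw [List.all_eq_true] at h
  have h1 := h s hs
  simp only [Bool.and_eq_true] at h1
  have hrel : ∀ i j l, r.has i j l = true →
      permI (X.mat i) * permI (X.mat j) = permI (X.mat l) := by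
    intro i j l hl
    have h2 := RT.has_sound r hl
    unfold VData.chkMat at hM
    rw [List.all_eq_true] at hM
    exact relQ_sound (hM _ h2)
  have hc := coc_of_chkRel (fun i => permI (X.mat i)) hrel h1.1
  obtain ⟨h2, h3, h4, h5⟩ := chkIncr_spec hI s hs
  refine ⟨?_, ?_, VData.admP_of_chk h1.2⟩
  · intro x hx
    simp only [vl, List.mem_cons, List.not_mem_nil, or_false] at hx
    rcases hx with rfl | rfl | rfl | rfl <;> omega
  · intro x hx y hy z hz
    exact hc _ (List.mem_map_of_mem hx) _ (List.mem_map_of_mem hy) _ (List.mem_map_of_mem hz)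

/-- **The counterexample from kernel checks.** -/
theorem counterexample_of_data {n B W₀ tab₀ : ℕ} [NeZero n] {L : List Item} {ps : List ℕ}
    (hcert : cert n B W₀ tab₀ L ps = true)
    {nU nB K W B₁ tab itab : ℕ} {t : RT} {bds : List ℕ}
    (hinv : chkInv t.has W itab K = true)
    (hlab : chkLabE n nU nB (labI W B₁ tab itab) (edI K W B₁ tab) t.has (bdHas bds)
      (L.map toST) = true)
    {k : ℕ} {box : ℕ → ABox} {S : ℤ}
    (hR : Nonempty (RealPoint k t.toList bds box (S : ℝ))) (hS : 0 < S)
    {pos : ℕ → Pt} (hpos : ∀ u < nB, (pos u).z = 0)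
    (hfan : ∀ v < n, ∃ c, chkV n k S box (labI W B₁ tab itab) pos (foldN nU nB) (sideN nU)
      (L.map toST) v c = true)
    {mat : ℕ → Pool.Agent.Helper68.BW.QM} {q : ℕ → Pool.Agent.Helper68.BW.QV} {r : RT}
    (hM : (VData.mk nU nB (labI W B₁ tab itab) mat q).chkMat r.toList = true)
    (hok : (L.map toST).all (fun s => chkRel r.has (labI W B₁ tab itab)
      ((vl s).map (VData.mk nU nB (labI W B₁ tab itab) mat q).fold) &&
        (VData.mk nU nB (labI W B₁ tab itab) mat q).chkAdm s) = true)
    {p m : ℕ} (hval : (VData.mk nU nB (labI W B₁ tab itab) mat q).chkVal (L.map toST) p m = true)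
    (hpm : p ≠ m) :
    Counterexample := by
  have : Nonempty (Fin n) := ⟨0⟩
  obtain ⟨hI, hC, hT, -, hconn, -⟩ := all_of_cert hcert
  obtain ⟨R⟩ := hR
  have hlabels := labels_of_realPointE R (fun _ h => h) hinv hlab (P := fun u => (pos u).val)
    (fun u hu => by simp [Pt.val, hpos u hu])
  have hOk := ok_of_tree _ hM hI hok
  exact counterexample_of hT (hlabels.isAffineComplex
    (fans_of_chk hI hC R hS _ pos (foldN nU nB) (sideN nU) hfan) hconn)
    VP_zero VP_bdd VP_cocycle ((VData.mk nU nB (labI W B₁ tab itab) mat q).D n)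
    (VData.hg _ n hOk) (VData.hval _ n hOk hval hpm)

end Pool.CX
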